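import Pool.Agent.R652.SSWord

/-!
# MP_56d946_al, Q1: no

The isomorphism problem for self-similar groups (groups `G(A)` generated by all states of a finite
invertible automaton `A`) is undecidable.

Idea of the proof. For a fixed counter machine with undecidable halting problem one computes from
an input `N` an automaton `A_N` with 18 letters such that `G(A_N)` is the semidirect product of
`ℤ ^ 4` with a group `S_N` of pairs (linear part, sign), where the linear parts form a subgroup of
a direct product of two free groups inside `GL_4(ℤ)` (a construction of the starting files,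
`Pool.Agent.Helper599`, made there for another problem). If the machine halts, `S_N` is a fixed
group with an element of order two (so `G(A_N)` is `G(B)` for a fixed automaton `B`); if it
does not, then the sign is determined by the linear part and `G(A_N)` has no element of order two.
-/

set_option autoImplicit false

namespace Pool.Agent.Results.MP_56d946_al.IsoUndecidable

open Pool.Agent.R652.SS Pool.Agent.Helper599 Pool.Agent.Helper599.Asm
open Pool.Agent.Helper599.Mod Pool.Agent.Helper599.Core

theorem fixed : ∃ B : Automaton, Valid B ∧ B.1 = 18 ∧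
    ¬ ∃ f : Automaton → Bool, Computable f ∧
      ∀ A : Automaton, Valid A → A.1 = 18 → (f A = true ↔ Nonempty (G A ≃* G B)) := by
  obtain ⟨Q, hQ, M, q0, N, hB, hab, hN, hnc⟩ := Source.exists_sys2
  refine ⟨auto (DZ M q0), auto_valid _, rfl, ?_⟩
  rintro ⟨f, hf, hcor⟩
  apply hnc
  have key : ∀ n : ℕ, M.Halts (some q0) (Source.ini (N n)) ↔
      f (auto (DA M q0 (N n))) = true := by
    intro n
    rw [Mod.halts_iff_reach M hB, hcor _ (auto_valid _) rfl]
    obtain ⟨e1⟩ := G_iso (DZ M q0)
    obtain ⟨e2⟩ := G_iso (DA M q0 (N n))
    constructor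
    · intro h
      rw [← Cl_of_reach M q0 (N n) h] at e1
      exact ⟨e2.trans e1.symm⟩
    · rintro ⟨e⟩
      by_contra hn
      obtain ⟨g, hg, h1, h2⟩ := torsion_Z M q0
      let e3 : Cl (DZ M q0) ≃* Cl (DA M q0 (N n)) := e1.symm.trans (e.symm.trans e2)
      have h3 : e3 ⟨g, hg⟩ * e3 ⟨g, hg⟩ = 1 := by
        rw [← map_mul]
        have : (⟨g, hg⟩ : Cl (DZ M q0)) * ⟨g, hg⟩ = 1 := Subtype.ext h1
        rw [this, map_one]
      have h4 := no_torsion M q0 hab (N n) hn (e3 ⟨g, hg⟩).1 (e3 ⟨g, hg⟩).2
        (congrArg Subtype.val h3)
      have h5 : e3 ⟨g, hg⟩ = 1 := Subtype.ext h4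
      have h6 : (⟨g, hg⟩ : Cl (DZ M q0)) = 1 := e3.injective (by rw [h5, map_one])
      exact h2 (congrArg Subtype.val h6)
  have hc : Computable (fun n => f (auto (DA M q0 (N n)))) := by
    have h1 : Computable (fun n : ℕ => ((18, (DA M q0 n).T) : Automaton)) :=
      (Primrec.pair (Primrec.const 18) (p_T M q0)).to_comp
    exact hf.comp (h1.comp hN)
  refine ComputablePred.computable_iff.2 ⟨_, hc, ?_⟩
  funext n
  rw [eq_iff_iff, key n]

/-- (1) No algorithm decides, given two finite invertible automata `A` and `B`, whether the
self-similar groups `G(A)` and `G(B)` are isomorphic.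
(2) In fact there is a fixed automaton `B` over an alphabet with 18 letters such that no algorithm
decides, given a finite invertible automaton `A` over the same alphabet, whether `G(A)` is
isomorphic to `G(B)`. (In both parts the algorithm may do anything, but has to halt, on inputs
which are not invertible automata.) -/
theorem result :
    (¬ ∃ f : Automaton × Automaton → Bool, Computable f ∧
      ∀ A B : Automaton, Valid A → Valid B → (f (A, B) = true ↔ Nonempty (G A ≃* G B))) ∧
    ∃ B : Automaton, Valid B ∧ B.1 = 18 ∧
      ¬ ∃ f : Automaton → Bool, Computable f ∧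
        ∀ A : Automaton, Valid A → A.1 = 18 → (f A = true ↔ Nonempty (G A ≃* G B)) := by
  refine ⟨?_, fixed⟩
  rintro ⟨f, hf, h⟩
  obtain ⟨B, hB, -, hno⟩ := fixed
  exact hno ⟨fun A => f (A, B), hf.comp (Computable.pair Computable.id (Computable.const B)),
    fun A hA _ => h A B hA hB⟩

end Pool.Agent.Results.MP_56d946_al.IsoUndecidable
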